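import Pool.Agent.H66.ER2.Targets
import Pool.Agent.H48.ER.Lib

/-!
# MP_816b90_co, row MPI: the new vertex of a meet is not an interior vertex of an odd prism
-/

set_option autoImplicit false

open Pool.Agent.H48.ER Pool.Agent.H52.ER2 Pool.Agent.H66.ER2

namespace Pool.Agent.H6.ER2

variable {V : Type} {G : SimpleGraph V} {s t : V} {l r n m : ℕ}
  {a1 x b1 y a2 b2 a3 b3 : V} {L R P Q : Set V}

theorem spr_flip (h : SPr G l r n m a1 x b1 y a2 b2 a3 b3 L R P Q) :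
    SPr G r l n m b1 y a1 x b2 a2 b3 a3 R L P Q where
  ipL := h.ipR
  ipR := h.ipL
  ipP := h.ipP.rev
  ipQ := h.ipQ.rev
  oLR := by rw [Nat.add_comm]; exact h.oLR
  oP := h.oP
  oQ := h.oQ
  dLR := h.dLR.symm
  dLP := h.dRP
  dLQ := h.dRQ
  dRP := h.dLP
  dRQ := h.dLQ
  dPQ := h.dPQ
  eLR := fun a ha b hb hab => h.eLR b hb a ha hab.symm
  eLP := h.eRP
  eLQ := h.eRQ
  eRP := h.eLP
  eRQ := h.eLQ
  ePQ := fun u hu w hw => by rw [h.ePQ u hu w hw]; exact Or.comm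

theorem spr_swap (h : SPr G l r n m a1 x b1 y a2 b2 a3 b3 L R P Q) :
    SPr G l r m n a1 x b1 y a3 b3 a2 b2 L R Q P where
  ipL := h.ipL
  ipR := h.ipR
  ipP := h.ipQ
  ipQ := h.ipP
  oLR := h.oLR
  oP := h.oQ
  oQ := h.oP
  dLR := h.dLR
  dLP := h.dLQ
  dLQ := h.dLP
  dRP := h.dRQ
  dRQ := h.dRP
  dPQ := h.dPQ.symm
  eLR := h.eLR
  eLP := h.eLQ
  eLQ := h.eLP
  eRP := h.eRQ
  eRQ := h.eRP
  ePQ := fun u hu w hw => by
    rw [SimpleGraph.adj_comm, h.ePQ w hw u hu]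
    exact or_congr and_comm and_comm

structure MPx (G : SimpleGraph V) (s t : V) (l r n m : ℕ)
    (a1 x b1 y a2 b2 a3 b3 : V) (L R P Q : Set V) : Prop where
  noh : NOH G
  ne : s ≠ t
  na : ¬ G.Adj s t
  sp : SPr G l r n m a1 x b1 y a2 b2 a3 b3 L R P Q
  hs : s ∉ vS L R P Q
  ht : t ∉ vS L R P Q
  cm : ∀ w ∈ vS L R P Q, (G.Adj s w ∧ G.Adj t w) ↔ w = x ∨ w = y

theorem vS_flip (L R P Q : Set V) : vS R L P Q = vS L R P Q := by
  unfold vS; rw [Set.union_comm R L]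

theorem vS_swap (L R P Q : Set V) : vS L R Q P = vS L R P Q := by
  unfold vS; rw [Set.union_right_comm]

theorem MPx.exch (h : MPx G s t l r n m a1 x b1 y a2 b2 a3 b3 L R P Q) :
    MPx G t s l r n m a1 x b1 y a2 b2 a3 b3 L R P Q where
  noh := h.noh
  ne := h.ne.symm
  na := fun e => h.na e.symm
  sp := h.sp
  hs := h.ht
  ht := h.hs
  cm := fun w hw => by rw [and_comm]; exact h.cm w hw

theorem MPx.flip (h : MPx G s t l r n m a1 x b1 y a2 b2 a3 b3 L R P Q) :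
    MPx G s t r l n m b1 y a1 x b2 a2 b3 a3 R L P Q where
  noh := h.noh
  ne := h.ne
  na := h.na
  sp := spr_flip h.sp
  hs := by rw [vS_flip]; exact h.hs
  ht := by rw [vS_flip]; exact h.ht
  cm := fun w hw => by
    rw [vS_flip] at hw
    rw [h.cm w hw]; exact Or.comm

theorem MPx.swap (h : MPx G s t l r n m a1 x b1 y a2 b2 a3 b3 L R P Q) :
    MPx G s t l r m n a1 x b1 y a3 b3 a2 b2 L R Q P where
  noh := h.noh
  ne := h.ne
  na := h.na
  sp := spr_swap h.sp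
  hs := by rw [vS_swap]; exact h.hs
  ht := by rw [vS_swap]; exact h.ht
  cm := fun w hw => by
    rw [vS_swap] at hw
    exact h.cm w hw

theorem memL {w : V} (h : w ∈ L) : w ∈ vS L R P Q := Or.inl (Or.inl (Or.inl h))
theorem memR {w : V} (h : w ∈ R) : w ∈ vS L R P Q := Or.inl (Or.inl (Or.inr h))
theorem memP {w : V} (h : w ∈ P) : w ∈ vS L R P Q := Or.inl (Or.inr h)
theorem memQ {w : V} (h : w ∈ Q) : w ∈ vS L R P Q := Or.inr h
theorem memPQ {w : V} (h : w ∈ P ∨ w ∈ Q) : w ∈ vS L R P Q :=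
  h.elim memP memQ

/-- no common neighbour on `P ∪ Q` -/
theorem MPx.nc (h : MPx G s t l r n m a1 x b1 y a2 b2 a3 b3 L R P Q) {w : V}
    (hw : w ∈ P ∨ w ∈ Q) (h1 : G.Adj s w) (h2 : G.Adj t w) : False := by
  rcases (h.cm w (memPQ hw)).1 ⟨h1, h2⟩ with e | e
  · subst e
    rcases hw with hw | hw
    · exact Set.disjoint_left.1 h.sp.dLP h.sp.ipL.right_mem hw
    · exact Set.disjoint_left.1 h.sp.dLQ h.sp.ipL.right_mem hw
  · subst e
    rcases hw with hw | hw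
    · exact Set.disjoint_left.1 h.sp.dRP h.sp.ipR.right_mem hw
    · exact Set.disjoint_left.1 h.sp.dRQ h.sp.ipR.right_mem hw

theorem MPx.sx (h : MPx G s t l r n m a1 x b1 y a2 b2 a3 b3 L R P Q) : G.Adj s x :=
  ((h.cm x (memL h.sp.ipL.right_mem)).2 (Or.inl rfl)).1

theorem MPx.sy (h : MPx G s t l r n m a1 x b1 y a2 b2 a3 b3 L R P Q) : G.Adj s y :=
  ((h.cm y (memR h.sp.ipR.right_mem)).2 (Or.inr rfl)).1

/-- a common neighbour which sees nothing of `P ∪ Q` -/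
theorem MPx.z (h : MPx G s t l r n m a1 x b1 y a2 b2 a3 b3 L R P Q) :
    ∃ z, G.Adj z s ∧ G.Adj z t ∧ z ∉ P ∧ z ∉ Q ∧ (∀ w, w ∈ P ∨ w ∈ Q → ¬ G.Adj z w) := by
  have key : ∀ {l r : ℕ} {a1 x b1 y a2 b2 a3 b3 : V} {L R : Set V},
      MPx G s t l r n m a1 x b1 y a2 b2 a3 b3 L R P Q → 1 ≤ l →
      ∃ z, G.Adj z s ∧ G.Adj z t ∧ z ∉ P ∧ z ∉ Q ∧ (∀ w, w ∈ P ∨ w ∈ Q → ¬ G.Adj z w) := by
    intro l r a1 x b1 y a2 b2 a3 b3 L R h hl
    have hne := h.sp.ipL.ne hl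
    have hx := h.sp.ipL.right_mem
    refine ⟨x, h.sx.symm, h.exch.sx.symm, fun e => Set.disjoint_left.1 h.sp.dLP hx e,
      fun e => Set.disjoint_left.1 h.sp.dLQ hx e, ?_⟩
    rintro w (hw | hw) hadj
    · exact hne ((h.sp.eLP x hx w hw).1 hadj).1.symm
    · exact hne ((h.sp.eLQ x hx w hw).1 hadj).1.symm
  rcases Nat.eq_zero_or_pos l with hl | hl
  · rcases Nat.eq_zero_or_pos r with hr | hr
    · exfalso
      have := h.sp.oLR
      rw [hl, hr] at this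
      exact absurd this (by decide)
    · exact key h.flip hr
  · exact key h hl

/-- (G5) -/
theorem MPx.g5 (h : MPx G s t l r n m a1 x b1 y a2 b2 a3 b3 L R P Q) {w w' : V}
    (hw : w ∈ P ∨ w ∈ Q) (hw' : w' ∈ P ∨ w' ∈ Q) (h1 : G.Adj s w) (h2 : G.Adj t w')
    (h3 : G.Adj w w') : False := by
  obtain ⟨z, hzs, hzt, hzP, hzQ, hz⟩ := h.z
  have ntw : ¬ G.Adj t w := fun e => h.nc hw h1 e
  have nsw' : ¬ G.Adj s w' := fun e => h.nc hw' e h2
  have sw : s ≠ w := fun e => h.hs (e ▸ memPQ hw)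
  have sw' : s ≠ w' := fun e => h.hs (e ▸ memPQ hw')
  have tw : t ≠ w := fun e => h.ht (e ▸ memPQ hw)
  have tw' : t ≠ w' := fun e => h.ht (e ▸ memPQ hw')
  have p0 : IP G 0 t t {t} := IP.zero t
  have p1 : IP G 1 w' t (insert w' {t}) := by
    refine p0.cons (fun e => tw' (Set.mem_singleton_iff.1 e).symm) ?_
    intro u hu
    rw [Set.mem_singleton_iff.1 hu]
    exact ⟨fun _ => rfl, fun _ => h2.symm⟩
  have p2 : IP G 2 w t (insert w (insert w' {t})) := by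
    refine p1.cons ?_ ?_
    · rintro (e | e)
      · exact h3.ne e
      · exact tw (Set.mem_singleton_iff.1 e).symm
    · rintro u (hu | hu)
      · rw [hu]; exact ⟨fun _ => rfl, fun _ => h3⟩
      · rw [Set.mem_singleton_iff.1 hu]
        exact ⟨fun e => absurd e.symm ntw, fun e => absurd e tw'⟩
  have p3 : IP G 3 s t (insert s (insert w (insert w' {t}))) := by
    refine p2.cons ?_ ?_
    · rintro (e | e | e)
      · exact sw e
      · exact sw' e
      · exact h.ne (Set.mem_singleton_iff.1 e)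
    · rintro u (hu | hu | hu)
      · rw [hu]; exact ⟨fun _ => rfl, fun _ => h1⟩
      · rw [hu]; exact ⟨fun e => absurd e nsw', fun e => absurd e h3.symm.ne⟩
      · rw [Set.mem_singleton_iff.1 hu]
        exact ⟨fun e => absurd e h.na, fun e => absurd e tw⟩
  have zw : z ≠ w := fun e => hw.elim (fun q => hzP (e ▸ q)) (fun q => hzQ (e ▸ q))
  have zw' : z ≠ w' := fun e => hw'.elim (fun q => hzP (e ▸ q)) (fun q => hzQ (e ▸ q))
  have hev : Even 3 := by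
    refine h.noh 3 s t z _ p3 (by norm_num) ?_ hzs hzt ?_
    · rintro (e | e | e | e)
      · exact hzs.ne e
      · exact zw e
      · exact zw' e
      · exact hzt.ne (Set.mem_singleton_iff.1 e)
    · rintro u (hu | hu | hu | hu) hadj
      · exact Or.inl hu
      · exact absurd (hu ▸ hadj) (hz w hw)
      · exact absurd (hu ▸ hadj) (hz w' hw')
      · exact Or.inr (Set.mem_singleton_iff.1 hu)
  exact absurd hev (by decide)

theorem MPx.a2P (h : MPx G s t l r n m a1 x b1 y a2 b2 a3 b3 L R P Q) : a2 ∈ P :=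
  h.sp.ipP.left_mem

theorem MPx.a3Q (h : MPx G s t l r n m a1 x b1 y a2 b2 a3 b3 L R P Q) : a3 ∈ Q :=
  h.sp.ipQ.left_mem

theorem MPx.a23 (h : MPx G s t l r n m a1 x b1 y a2 b2 a3 b3 L R P Q) : G.Adj a2 a3 :=
  (h.sp.ePQ a2 h.a2P a3 h.a3Q).2 (Or.inl ⟨rfl, rfl⟩)

/-- both major: `l = 0` -/
theorem MPx.maj0 (h : MPx G s t l r n m a1 x b1 y a2 b2 a3 b3 L R P Q)
    (h1 : Two G s a1 a2 a3) (h2 : Two G t a1 a2 a3) : l = 0 := by
  have n2 : ¬ (G.Adj s a2 ∧ G.Adj t a2) := fun e => h.nc (Or.inl h.a2P) e.1 e.2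
  have n3 : ¬ (G.Adj s a3 ∧ G.Adj t a3) := fun e => h.nc (Or.inr h.a3Q) e.1 e.2
  have h12 : G.Adj s a1 ∧ G.Adj t a1 := by
    unfold Two at h1 h2
    tauto
  rcases (h.cm a1 (memL h.sp.ipL.left_mem)).1 h12 with e | e
  · by_contra hl
    exact h.sp.ipL.ne (Nat.one_le_iff_ne_zero.2 hl) e
  · exfalso
    exact Set.disjoint_left.1 h.sp.dLR h.sp.ipL.left_mem (e ▸ h.sp.ipR.right_mem)

/-- major and minor -/
theorem MPx.mm (h : MPx G s t l r n m a1 x b1 y a2 b2 a3 b3 L R P Q)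
    (h1 : Two G s a1 a2 a3) (h2 : TAl G t a1 a2 b2 n P Q) : False := by
  obtain ⟨_, c, hcP, _, _, _, _, hall⟩ := h2
  have ta2 : G.Adj t a2 := (hall a2 (Or.inl h.a2P)).2 (Or.inl rfl)
  have n2 : ¬ G.Adj s a2 := fun e => h.nc (Or.inl h.a2P) e ta2
  have s3 : G.Adj s a3 := by
    unfold Two at h1
    tauto
  exact h.g5 (Or.inr h.a3Q) (Or.inl h.a2P) s3 ta2 h.a23.symm

/-- `s` of type `a2`, `t` of type `a2` -/
theorem MPx.t1 (h : MPx G s t l r n m a1 x b1 y a2 b2 a3 b3 L R P Q)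
    (h1 : TAl G s a1 a2 b2 n P Q) (h2 : TAl G t a1 a2 b2 n P Q) : False := by
  obtain ⟨_, c, _, _, _, _, _, hall⟩ := h1
  obtain ⟨_, c', _, _, _, _, _, hall'⟩ := h2
  exact h.nc (Or.inl h.a2P) ((hall a2 (Or.inl h.a2P)).2 (Or.inl rfl))
    ((hall' a2 (Or.inl h.a2P)).2 (Or.inl rfl))

/-- `s` of type `a2`, `t` of type `a3` -/
theorem MPx.t2 (h : MPx G s t l r n m a1 x b1 y a2 b2 a3 b3 L R P Q)
    (h1 : TAl G s a1 a2 b2 n P Q) (h2 : TAl G t a1 a3 b3 m Q P) : False := by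
  obtain ⟨_, c, _, _, _, _, _, hall⟩ := h1
  obtain ⟨_, c', _, _, _, _, _, hall'⟩ := h2
  exact h.g5 (Or.inl h.a2P) (Or.inr h.a3Q) ((hall a2 (Or.inl h.a2P)).2 (Or.inl rfl))
    ((hall' a3 (Or.inl h.a3Q)).2 (Or.inl rfl)) h.a23

/-- the common part of the last two cases: a path `T` from `a3` to `g` in `P ∪ Q` -/
theorem MPx.hole (h : MPx G s t l r n m a1 x b1 y a2 b2 a3 b3 L R P Q) {k : ℕ} {g : V}
    {T : Set V} (hT : IP G k a3 g T) (hTs : ∀ w ∈ T, w ∈ P ∨ w ∈ Q) (h2T : a2 ∉ T)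
    (hadj : ∀ w ∈ T, G.Adj a2 w ↔ w = a3) (hs2 : G.Adj s a2) (hsT : ∀ w ∈ T, ¬ G.Adj s w)
    (htT : ∀ w ∈ T, G.Adj t w ↔ w = g) (hk : Even k) : False := by
  obtain ⟨z, hzs, hzt, hzP, hzQ, hz⟩ := h.z
  have hsS : ∀ w, w ∈ P ∨ w ∈ Q → s ≠ w := fun w hw e => h.hs (e ▸ memPQ hw)
  have htS : ∀ w, w ∈ P ∨ w ∈ Q → t ≠ w := fun w hw e => h.ht (e ▸ memPQ hw)
  have hzS : ∀ w, w ∈ P ∨ w ∈ Q → z ≠ w := fun w hw e =>
    hw.elim (fun q => hzP (e ▸ q)) (fun q => hzQ (e ▸ q))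
  have hta2 : ¬ G.Adj t a2 := fun e => h.nc (Or.inl h.a2P) hs2 e
  have p1 : IP G (k + 1) a2 g (insert a2 T) := hT.cons h2T hadj
  have p2 : IP G (k + 2) s g (insert s (insert a2 T)) := by
    refine p1.cons ?_ ?_
    · rintro (e | e)
      · exact hsS a2 (Or.inl h.a2P) e
      · exact hsS s (hTs s e) rfl
    · rintro u (hu | hu)
      · rw [hu]; exact ⟨fun _ => rfl, fun _ => hs2⟩
      · exact ⟨fun e => absurd e (hsT u hu), fun e => absurd (e ▸ hu) h2T⟩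
  have p3 : IP G (k + 3) s t (insert t (insert s (insert a2 T))) := by
    refine p2.snoc ?_ ?_
    · rintro (e | e | e)
      · exact h.ne e.symm
      · exact htS a2 (Or.inl h.a2P) e
      · exact htS t (hTs t e) rfl
    · rintro u (hu | hu | hu)
      · rw [hu]
        exact ⟨fun e => absurd e.symm h.na, fun e => absurd e (hsS g (hTs g hT.right_mem))⟩
      · rw [hu]
        exact ⟨fun e => absurd e hta2, fun e => absurd (e ▸ hT.right_mem) h2T⟩
      · exact htT u hu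
  have hev : Even (k + 3) := by
    refine h.noh (k + 3) s t z _ p3 (by omega) ?_ hzs hzt ?_
    · rintro (e | e | e | e)
      · exact hzt.ne e
      · exact hzs.ne e
      · exact hzS a2 (Or.inl h.a2P) e
      · exact hzS z (hTs z e) rfl
    · rintro u (hu | hu | hu | hu) hadj'
      · exact Or.inr hu
      · exact Or.inl hu
      · exact absurd (hu ▸ hadj') (hz a2 (Or.inl h.a2P))
      · exact absurd hadj' (hz u (hTs u hu))
  have hodd : Odd (k + 3) := hk.add_odd (by decide)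
  exact (Nat.not_even_iff_odd.2 hodd) hev

/-- `s` of type `a2`, `t` of type `b2` -/
theorem MPx.t3 (h : MPx G s t l r n m a1 x b1 y a2 b2 a3 b3 L R P Q)
    (h1 : TAl G s a1 a2 b2 n P Q) (h2 : TAl G t b1 b2 a2 n P Q) : False := by
  obtain ⟨_, c, hcP, hcb, _, _, hn, hall⟩ := h1
  obtain ⟨_, c', hcP', hca, _, _, _, hall'⟩ := h2
  have hPQ : ∀ {u w : V}, u ∈ P → w ∈ Q → u ≠ w := fun hu hw e =>
    Set.disjoint_left.1 h.sp.dPQ hu (e ▸ hw)
  have hb2 : b2 ∈ P := h.sp.ipP.right_mem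
  have hb3 : b3 ∈ Q := h.sp.ipQ.right_mem
  have hab : a2 ≠ b2 := h.sp.ipP.ne (by omega)
  have T0 : IP G (m + 1) a3 b2 (insert b2 Q) := by
    refine h.sp.ipQ.snoc (fun e => hPQ hb2 e rfl) ?_
    intro w hw
    rw [h.sp.ePQ b2 hb2 w hw]
    constructor
    · rintro (⟨e, _⟩ | ⟨_, e⟩)
      · exact absurd e.symm hab
      · exact e
    · intro e
      exact Or.inr ⟨rfl, e⟩
  refine h.hole T0 ?_ ?_ ?_ ((hall a2 (Or.inl h.a2P)).2 (Or.inl rfl)) ?_ ?_
    (h.sp.oQ.add_odd (by decide))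
  · rintro w (hw | hw)
    · exact Or.inl (hw ▸ hb2)
    · exact Or.inr hw
  · rintro (e | e)
    · exact hab e
    · exact hPQ h.a2P e rfl
  · rintro w (hw | hw)
    · rw [hw]
      constructor
      · intro e
        have := h.sp.ipP.adj_iff.1 e
        omega
      · intro e
        exact absurd e (hPQ hb2 h.a3Q)
    · rw [h.sp.ePQ a2 h.a2P w hw]
      constructor
      · rintro (⟨_, e⟩ | ⟨e, _⟩)
        · exact e
        · exact absurd e hab
      · intro e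
        exact Or.inl ⟨rfl, e⟩
  · rintro w (hw | hw) e
    · rw [hw] at e
      rcases (hall b2 (Or.inl hb2)).1 e with q | q
      · exact hab q.symm
      · exact hcb q.symm
    · rcases (hall w (Or.inr hw)).1 e with q | q
      · exact hPQ h.a2P hw q.symm
      · exact hPQ hcP hw q.symm
  · rintro w (hw | hw)
    · rw [hw]
      exact ⟨fun _ => rfl, fun _ => (hall' b2 (Or.inl hb2)).2 (Or.inl rfl)⟩
    · rw [hall' w (Or.inr hw)]
      constructor
      · rintro (q | q)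
        · exact q
        · exact absurd q.symm (hPQ hcP' hw)
      · intro q
        exact Or.inl q

/-- `s` of type `a2`, `t` of type `b3` -/
theorem MPx.t4 (h : MPx G s t l r n m a1 x b1 y a2 b2 a3 b3 L R P Q)
    (h1 : TAl G s a1 a2 b2 n P Q) (h2 : TAl G t b1 b3 a3 m Q P) : False := by
  obtain ⟨_, c, hcP, hcb, _, _, hn, hall⟩ := h1
  obtain ⟨_, c', hcQ', hca, hbc, _, hm, hall'⟩ := h2
  have hPQ : ∀ {u w : V}, u ∈ P → w ∈ Q → u ≠ w := fun hu hw e =>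
    Set.disjoint_left.1 h.sp.dPQ hu (e ▸ hw)
  have hb3 : b3 ∈ Q := h.sp.ipQ.right_mem
  have hab : a2 ≠ b2 := h.sp.ipP.ne (by omega)
  obtain ⟨k, rfl⟩ : ∃ k, m = k + 1 := ⟨m - 1, by omega⟩
  obtain ⟨x', hx1, hx2, hx3, hx4⟩ := h.sp.ipQ.rev.tail
  have ecx : c' = x' := hx4 c' hcQ' hbc
  subst ecx
  have hke : Even k := by
    have := h.sp.oQ
    rcases this with ⟨q, hq⟩
    exact ⟨q, by omega⟩
  refine h.hole hx3.rev ?_ ?_ ?_ ((hall a2 (Or.inl h.a2P)).2 (Or.inl rfl)) ?_ ?_ hke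
  · rintro w ⟨hw, _⟩
    exact Or.inr hw
  · rintro ⟨e, _⟩
    exact hPQ h.a2P e rfl
  · rintro w ⟨hw, _⟩
    rw [h.sp.ePQ a2 h.a2P w hw]
    constructor
    · rintro (⟨_, e⟩ | ⟨e, _⟩)
      · exact e
      · exact absurd e hab
    · intro e
      exact Or.inl ⟨rfl, e⟩
  · rintro w ⟨hw, _⟩ e
    rcases (hall w (Or.inr hw)).1 e with q | q
    · exact hPQ h.a2P hw q.symm
    · exact hPQ hcP hw q.symm
  · rintro w ⟨hw, hwb⟩
    rw [hall' w (Or.inl hw)]
    constructor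
    · rintro (q | q)
      · exact absurd (Set.mem_singleton_iff.2 q) hwb
      · exact q
    · intro q
      exact Or.inr q

/-- `s` of type `a2` -/
theorem MPx.ty (h : MPx G s t l r n m a1 x b1 y a2 b2 a3 b3 L R P Q)
    (h1 : TAl G s a1 a2 b2 n P Q)
    (h2 : TAl G t a1 a2 b2 n P Q ∨ TAl G t a1 a3 b3 m Q P ∨ TAl G t b1 b2 a2 n P Q ∨
      TAl G t b1 b3 a3 m Q P) : False := by
  rcases h2 with h2 | h2 | h2 | h2
  · exact h.t1 h1 h2
  · exact h.t2 h1 h2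
  · exact h.t3 h1 h2
  · exact h.t4 h1 h2

/-- `s` major, `t` minor -/
theorem MPx.mam (h : MPx G s t l r n m a1 x b1 y a2 b2 a3 b3 L R P Q)
    (h1 : Two G s a1 a2 a3) (h1' : Two G s b1 b2 b3)
    (h2 : TAl G t a1 a2 b2 n P Q ∨ TAl G t a1 a3 b3 m Q P ∨ TAl G t b1 b2 a2 n P Q ∨
      TAl G t b1 b3 a3 m Q P) : False := by
  have sw : ∀ {a b c : V}, Two G s a b c → Two G s a c b := by
    intro a b c q
    unfold Two at *
    tauto
  rcases h2 with h2 | h2 | h2 | h2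
  · exact h.mm h1 h2
  · exact h.swap.mm (sw h1) h2
  · exact h.flip.mm h1' h2
  · exact h.swap.flip.mm (sw h1') h2

theorem pf_MPI (hSPV : T_SPV) : T_MPI := by
  intro V G s t l r n m a1 x b1 y a2 b2 a3 b3 L R P Q hNOH hNOP hst hna hsp hs ht hcm
  have h : MPx G s t l r n m a1 x b1 y a2 b2 a3 b3 L R P Q := ⟨hNOH, hst, hna, hsp, hs, ht, hcm⟩
  have h' := h.exch
  rcases hSPV V G l r n m a1 x b1 y a2 b2 a3 b3 s L R P Q hNOH hNOP hsp hs h.sx h.sy with
    ⟨s1, s2⟩ | ⟨_, s1⟩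
  · rcases hSPV V G l r n m a1 x b1 y a2 b2 a3 b3 t L R P Q hNOH hNOP hsp ht h'.sx h'.sy with
      ⟨t1, t2⟩ | ⟨_, t1⟩
    · have e1 := h.maj0 s1 t1
      have e2 := h.flip.maj0 s2 t2
      have := hsp.oLR
      rw [e1, e2] at this
      exact absurd this (by decide)
    · exact h.mam s1 s2 t1
  · rcases hSPV V G l r n m a1 x b1 y a2 b2 a3 b3 t L R P Q hNOH hNOP hsp ht h'.sx h'.sy with
      ⟨t1, t2⟩ | ⟨_, t1⟩
    · exact h'.mam t1 t2 s1
    · rcases s1 with s1 | s1 | s1 | s1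
      · exact h.ty s1 t1
      · refine h.swap.ty s1 ?_
        rcases t1 with t1 | t1 | t1 | t1
        · exact Or.inr (Or.inl t1)
        · exact Or.inl t1
        · exact Or.inr (Or.inr (Or.inr t1))
        · exact Or.inr (Or.inr (Or.inl t1))
      · refine h.flip.ty s1 ?_
        rcases t1 with t1 | t1 | t1 | t1
        · exact Or.inr (Or.inr (Or.inl t1))
        · exact Or.inr (Or.inr (Or.inr t1))
        · exact Or.inl t1
        · exact Or.inr (Or.inl t1)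
      · refine h.swap.flip.ty s1 ?_
        rcases t1 with t1 | t1 | t1 | t1
        · exact Or.inr (Or.inr (Or.inr t1))
        · exact Or.inr (Or.inr (Or.inl t1))
        · exact Or.inr (Or.inl t1)
        · exact Or.inl t1

end Pool.Agent.H6.ER2
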